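import Pool.Agent.H927.MG.SGoals

/-!
# A parameter value which is not killed by a derivation (part NI of the project MG, helper927)
-/

set_option autoImplicit false

open Polynomial

namespace Pool.Agent.H264.MG927

open Pool.Agent.H927.MG

theorem exists_s (D : Derivation ℤ ℂ ℂ) (hD : D ≠ 0) : ∃ s : ℂ, D s ≠ 0 ∧ s ≠ 0 ∧
    1 + s ^ 2 ≠ 0 ∧ 1 + s ^ 2 + 8 ≠ 0 ∧ (1 + s ^ 2) ^ 2 + 8 ≠ 0 ∧
    8 + 20 * (1 + s ^ 2) - (1 + s ^ 2) ^ 2 ≠ 0 := by
  obtain ⟨c, hc⟩ : ∃ c, D c ≠ 0 := by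
    by_contra h
    push Not at h
    exact hD (Derivation.ext fun x => by simpa using h x)
  let Q : ℂ[X] := X * (1 + X ^ 2) * (1 + X ^ 2 + 8) * ((1 + X ^ 2) ^ 2 + 8) *
    (8 + 20 * (1 + X ^ 2) - (1 + X ^ 2) ^ 2)
  have hQe : ∀ s : ℂ, Q.eval s = s * (1 + s ^ 2) * (1 + s ^ 2 + 8) * ((1 + s ^ 2) ^ 2 + 8) *
    (8 + 20 * (1 + s ^ 2) - (1 + s ^ 2) ^ 2) := by
    intro s
    simp [Q]
  have hQ : Q ≠ 0 := by
    intro h
    have h1 := hQe 1
    rw [h] at h1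
    norm_num at h1
  have hinf : (Set.range fun n : ℕ => c + (n : ℂ)).Infinite := by
    apply Set.infinite_range_of_injective
    intro m n hmn
    simpa using hmn
  obtain ⟨s, ⟨n, hn⟩, hs⟩ := hinf.exists_notMem_finset Q.roots.toFinset
  have hs' : Q.eval s ≠ 0 := by
    intro h
    apply hs
    rw [Multiset.mem_toFinset, mem_roots hQ]
    exact h
  rw [hQe] at hs'
  have h1 := right_ne_zero_of_mul hs'
  have h2 := left_ne_zero_of_mul hs'
  have h3 := right_ne_zero_of_mul h2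
  have h4 := left_ne_zero_of_mul h2
  have h5 := right_ne_zero_of_mul h4
  have h6 := left_ne_zero_of_mul h4
  have h7 := right_ne_zero_of_mul h6
  have h8 := left_ne_zero_of_mul h6
  refine ⟨s, ?_, h8, h7, h5, h3, h1⟩
  rw [← hn]
  simpa using hc

theorem prod_aux (s lam N W U : ℂ) (hlam : lam ≠ 0) (hN : N ≠ 0) (hW : W ≠ 0) (hU : U ≠ 0) :
    -4 * s * lam * 1 * U * N⁻¹ * (-2 * s * 1 * N * W⁻¹ ^ 2 / (lam ^ 2 * U ^ 2 * W⁻¹ ^ 2)) *
      (lam * U) = 8 * s ^ 2 := by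
  field_simp
  try ring

theorem noniso : S_noniso := by
  intro D hD
  obtain ⟨s, hDs, hs0, hu, hu8, hw, hρ⟩ := exists_s D hD
  obtain ⟨lam, hlam⟩ := IsAlgClosed.exists_pow_nat_eq (1 + s ^ 2) (n := 3) (by norm_num)
  obtain ⟨k, hk⟩ := IsAlgClosed.exists_pow_nat_eq
    (-((1 + s ^ 2) ^ 2 + 8) * ((1 + s ^ 2) ^ 2 + 88 * (1 + s ^ 2) - 8)) (n := 2) (by norm_num)
  have hlam0 : lam ≠ 0 := by
    rintro rfl
    apply hu
    rw [← hlam]; simp
  set u : ℂ := 1 + s ^ 2 with hudef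
  have hn : 8 + 20 * u - u ^ 2 - k ≠ 0 := by
    intro h
    have h1 : (8 + 20 * u - u ^ 2 - k) * (8 + 20 * u - u ^ 2 + k) = 2 * u * (u + 8) ^ 3 := by
      have : (8 + 20 * u - u ^ 2 - k) * (8 + 20 * u - u ^ 2 + k) =
        (8 + 20 * u - u ^ 2) ^ 2 - k ^ 2 := by ring
      rw [this, hk]
      ring
    rw [h, zero_mul] at h1
    have h2 : 2 * u * (u + 8) ^ 3 ≠ 0 := mul_ne_zero (mul_ne_zero two_ne_zero hu) (pow_ne_zero _ hu8)
    exact h2 h1.symm
  have hU : hU s (1 : ℂ) = u := by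
    unfold hU; rw [hudef]; ring
  have hnn : Pool.Agent.H927.MG.hn s (1 : ℂ) k = 8 + 20 * u - u ^ 2 - k := by
    unfold Pool.Agent.H927.MG.hn; rw [hU]; ring
  let P : Par ℂ :=
    { σ := s, z := 1, lam := lam, k := k, w := (u ^ 2 + 8)⁻¹, e := (8 + 20 * u - u ^ 2 - k)⁻¹
      hlam := by rw [hU, hlam]
      hk := by rw [hU, hk]; ring
      hw := by
        rw [hU]
        have : u ^ 2 + 8 * (1 : ℂ) ^ 12 = u ^ 2 + 8 := by ring
        rw [this]
        exact mul_inv_cancel₀ hw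
      he := by
        rw [hnn]
        exact mul_inv_cancel₀ hn }
  have hUP : Pool.Agent.H927.MG.hU P.σ P.z = u := hU
  have hz : P.z = 1 := rfl
  have hnP : Pool.Agent.H927.MG.hn P.σ P.z P.k = 8 + 20 * u - u ^ 2 - k := hnn
  refine ⟨P, rfl, hs0, ?_, ?_, ?_, ?_⟩
  · rw [hUP]; exact hu
  · rw [hUP, hz]
    simpa using hu8
  · rw [hUP, hz]
    have h1 : P.lam ^ 2 ≠ 0 := pow_ne_zero _ hlam0
    have h2 : (u + 8 * (1 : ℂ) ^ 6) ^ 2 ≠ 0 := by
      apply pow_ne_zero; simpa using hu8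
    have h3 : P.w ^ 2 ≠ 0 := pow_ne_zero _ (inv_ne_zero hw)
    exact mul_ne_zero (mul_ne_zero h1 h2) h3
  · rw [hUP, hz, hnP]
    rintro ⟨ha, hb⟩
    have hPl : P.lam = lam := rfl
    have hPs : P.σ = s := rfl
    have hPe : P.e = (8 + 20 * u - u ^ 2 - k)⁻¹ := rfl
    have hPw : P.w = (u ^ 2 + 8)⁻¹ := rfl
    rw [hPl, hPs, hPe] at ha
    rw [hPl, hPs, hPw] at hb
    generalize ha' : -4 * s * lam * 1 * (u + 8 * 1 ^ 6) * (8 + 20 * u - u ^ 2 - k)⁻¹ = a at ha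
    generalize hb' : -2 * s * 1 * (8 + 20 * u - u ^ 2 - k) * (u ^ 2 + 8)⁻¹ ^ 2 /
      (lam ^ 2 * (u + 8 * 1 ^ 6) ^ 2 * (u ^ 2 + 8)⁻¹ ^ 2) = b at hb
    have hab : a * b * (lam * (u + 8)) = 8 * s ^ 2 := by
      rw [← ha', ← hb']
      have h8 : u + 8 * (1 : ℂ) ^ 6 = u + 8 := by ring
      rw [h8]
      exact prod_aux s lam _ _ _ hlam0 hn hw hu8
    have hs2 : s ^ 2 = u - 1 := by rw [hudef]; ring
    have hc : (a * b) ^ 3 * (u * (u + 8) ^ 3) = 512 * (u - 1) ^ 3 := by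
      have : (a * b * (lam * (u + 8))) ^ 3 = (8 * s ^ 2) ^ 3 := by rw [hab]
      rw [hs2] at this
      calc (a * b) ^ 3 * (u * (u + 8) ^ 3) = (a * b) ^ 3 * (lam ^ 3 * (u + 8) ^ 3) := by rw [hlam]
        _ = (a * b * (lam * (u + 8))) ^ 3 := by ring
        _ = (8 * (u - 1)) ^ 3 := this
        _ = 512 * (u - 1) ^ 3 := by ring
    have hDab : D (a * b) = 0 := by
      rw [Derivation.leibniz, ha, hb]; simp
    set c := (a * b) ^ 3 with hcdef
    have hDc : D c = 0 := by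
      rw [hcdef, Derivation.leibniz_pow, hDab]; simp
    have hDn : ∀ n : ℕ, D (n : ℂ) = 0 := fun n => Derivation.map_natCast D n
    have hD1 : D (1 : ℂ) = 0 := Derivation.map_one_eq_zero D
    have hD8 : D (8 : ℂ) = 0 := by exact_mod_cast hDn 8
    have hD512 : D (512 : ℂ) = 0 := by exact_mod_cast hDn 512
    have hDu : D u = 2 * s * D s := by
      rw [hudef, map_add, hD1, Derivation.leibniz_pow]
      simp; ring
    have hDu0 : D u ≠ 0 := by
      rw [hDu]; exact mul_ne_zero (mul_ne_zero two_ne_zero hs0) hDs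
    have hmain := congrArg D hc
    have hL : D (c * (u * (u + 8) ^ 3)) = c * ((u + 8) ^ 3 + 3 * u * (u + 8) ^ 2) * D u := by
      rw [Derivation.leibniz, hDc, Derivation.leibniz, Derivation.leibniz_pow, map_add, hD8]
      simp only [smul_eq_mul, nsmul_eq_mul]
      push_cast
      ring
    have hR : D (512 * (u - 1) ^ 3) = 1536 * (u - 1) ^ 2 * D u := by
      rw [Derivation.leibniz, hD512, Derivation.leibniz_pow, map_sub, hD1]
      simp only [smul_eq_mul, nsmul_eq_mul]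
      push_cast
      ring
    rw [hL, hR] at hmain
    have h1 := mul_right_cancel₀ hDu0 hmain
    have h2 : 512 * (u - 1) ^ 2 * ((u - 1) * (4 * u + 8) - 3 * u * (u + 8)) = 0 := by
      have h3 : c * ((u + 8) ^ 3 + 3 * u * (u + 8) ^ 2) * (u * (u + 8)) =
        (c * (u * (u + 8) ^ 3)) * (4 * u + 8) := by ring
      have h4 : (512 * (u - 1) ^ 3) * (4 * u + 8) = 1536 * (u - 1) ^ 2 * (u * (u + 8)) := by
        rw [← hc, ← h3, h1]
      linear_combination h4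
    have h5 : (u - 1) ≠ 0 := by rw [← hs2]; exact pow_ne_zero _ hs0
    have h6 : 512 * (u - 1) ^ 2 ≠ 0 := mul_ne_zero (by norm_num) (pow_ne_zero _ h5)
    have h7 := (mul_eq_zero.1 h2).resolve_left h6
    apply hρ
    linear_combination -h7

end Pool.Agent.H264.MG927
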